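import Mathlib

set_option autoImplicit false

open Metric Filter Topology

namespace Pool.Agent.Results.MP_84a0b9_an.ArgumentBoundOne

/-- The class `H_α`: holomorphic `f` on the unit disc with `f(0) = 0`, `f'(0) = 1`,
`Re (f(z)/z) ≥ 0` and `Re [α|z|² f(z)/z + (1-α)(1-|z|²) f'(z)] ≥ 0` for all `|z| < 1`.
Here `dslope f 0 z` is the quotient `f(z)/z`, read as `f'(0)` at `z = 0`. -/
def H (α : ℝ) : Set (ℂ → ℂ) :=
  {f | DifferentiableOn ℂ f (ball 0 1) ∧ f 0 = 0 ∧ deriv f 0 = 1 ∧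
    (∀ z ∈ ball (0 : ℂ) 1, 0 ≤ (dslope f 0 z).re) ∧
    ∀ z ∈ ball (0 : ℂ) 1,
      0 ≤ (((α * ‖z‖ ^ 2 : ℝ) : ℂ) * dslope f 0 z +
        (((1 - α) * (1 - ‖z‖ ^ 2) : ℝ) : ℂ) * deriv f z).re}

/-- `B(G) = (2/π) sup_{f ∈ G} sup_{|z| < 1} |Arg (f(z)/z)|`. -/
noncomputable def B (G : Set (ℂ → ℂ)) : ℝ :=
  2 / Real.pi * sSup {t : ℝ | ∃ f ∈ G, ∃ z ∈ ball (0 : ℂ) 1, t = |(dslope f 0 z).arg|}

lemma one_sub_re {z : ℂ} (hz : z ∈ ball (0 : ℂ) 1) : 0 < (1 - z).re := by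
  have h1 : ‖z‖ < 1 := by simpa using hz
  have h2 := Complex.abs_re_le_norm z
  have h3 := le_abs_self z.re
  simp only [Complex.sub_re, Complex.one_re]
  linarith

lemma cpow_polar {w : ℂ} (hw : w ≠ 0) (s : ℝ) :
    w ^ (s : ℂ) = ((‖w‖ ^ s : ℝ) : ℂ) *
      (Real.cos (s * w.arg) + Real.sin (s * w.arg) * Complex.I) := by
  have h0 : 0 < ‖w‖ := norm_pos_iff.mpr hw
  rw [Complex.cpow_def_of_ne_zero hw]
  have : Complex.log w * (s : ℂ) = ((Real.log ‖w‖ * s : ℝ) : ℂ) + ((s * w.arg : ℝ) : ℂ) * Complex.I := by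
    rw [Complex.log]
    push_cast
    ring
  rw [this, Complex.exp_add, Complex.exp_mul_I, ← Complex.ofReal_exp, ← Complex.ofReal_cos,
    ← Complex.ofReal_sin, Real.rpow_def_of_pos h0]

/-- the multiplier `p(z) = (1-z)^λ + iδ(1-(1-z)²)` -/
noncomputable def pf (l δ : ℝ) (z : ℂ) : ℂ :=
  (1 - z) ^ (l : ℂ) + Complex.I * δ * (1 - (1 - z) ^ 2)

lemma hasDerivAt_pf (l δ : ℝ) {z : ℂ} (hz : z ∈ ball (0 : ℂ) 1) :
    HasDerivAt (pf l δ) (-(l * (1 - z) ^ ((l : ℂ) - 1)) + 2 * Complex.I * δ * (1 - z)) z := by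
  have hs : 1 - z ∈ Complex.slitPlane := Or.inl (one_sub_re hz)
  have a : HasDerivAt (fun w : ℂ => 1 - w) (-1) z := by
    simpa using (hasDerivAt_id z).const_sub 1
  have b := a.cpow_const (c := (l : ℂ)) hs
  have c := ((a.pow 2).const_sub 1).const_mul (Complex.I * (δ : ℂ))
  have d := b.add c
  have e : -(l * (1 - z) ^ ((l : ℂ) - 1)) + 2 * Complex.I * δ * (1 - z) =
      (l : ℂ) * (1 - z) ^ ((l : ℂ) - 1) * (-1) +
      Complex.I * (δ : ℂ) * -(((2 : ℕ) : ℂ) * (1 - z) ^ (2 - 1) * -1) := by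
    push_cast
    ring
  rw [e]
  exact d

lemma core {l δ ρ φ : ℝ} (hl0 : 0 < l) (hl1 : l < 1) (hδ0 : 0 ≤ δ)
    (hδ : 72 * δ ≤ l * Real.sin (l * (Real.pi / 2))) (hρ : 0 < ρ) (hφ : |φ| < Real.pi / 2)
    (hρφ : ρ < 2 * Real.cos φ) :
    0 ≤ ρ ^ l * (Real.cos (l * φ) * (2 * l * (1 - ρ * (2 * Real.cos φ - ρ)) +
        ρ * (2 * Real.cos φ - ρ) * (1 + l)) -
        l * (2 * Real.cos φ - ρ) * Real.cos ((1 - l) * φ)) +
      δ * (2 * l * (1 - ρ * (2 * Real.cos φ - ρ)) * (ρ ^ 2 * (2 * Real.sin φ * Real.cos φ)) +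
        ρ * (2 * Real.cos φ - ρ) * (3 * ρ ^ 2 * (2 * Real.sin φ * Real.cos φ) -
          2 * ρ * Real.sin φ)) := by
  obtain ⟨hψl, hψr⟩ := abs_lt.mp hφ
  have hc0 : 0 < Real.cos φ := Real.cos_pos_of_mem_Ioo ⟨by linarith, by linarith⟩
  have hc1 : Real.cos φ ≤ 1 := Real.cos_le_one φ
  have hC0 : 0 < Real.cos (l * φ) := by
    have : |l * φ| < Real.pi / 2 := by
      rw [abs_mul, abs_of_pos hl0]
      nlinarith [abs_nonneg φ, Real.pi_pos]
    exact Real.cos_pos_of_mem_Ioo ⟨by linarith [neg_abs_le (l * φ)], by linarith [le_abs_self (l * φ)]⟩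
  have hM : Real.sin (l * (Real.pi / 2)) ≤ Real.cos ((1 - l) * φ) := by
    have e : Real.sin (l * (Real.pi / 2)) = Real.cos ((1 - l) * (Real.pi / 2)) := by
      rw [← Real.cos_pi_div_two_sub]
      congr 1
      ring
    rw [e, ← Real.cos_abs ((1 - l) * φ)]
    have h1l : 0 < 1 - l := by linarith
    apply Real.cos_le_cos_of_nonneg_of_le_pi (abs_nonneg _)
    · nlinarith [Real.pi_pos]
    · rw [abs_mul, abs_of_pos h1l]
      nlinarith
  have hm0 : 0 ≤ Real.sin (l * (Real.pi / 2)) :=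
    Real.sin_nonneg_of_nonneg_of_le_pi (by positivity) (by nlinarith [Real.pi_pos])
  -- product-to-sum
  have hprod : Real.cos (l * φ) - Real.cos φ * Real.cos ((1 - l) * φ) =
      Real.sin φ * Real.sin ((1 - l) * φ) := by
    have : l * φ = φ - (1 - l) * φ := by ring
    rw [this, Real.cos_sub]
    have : φ - (φ - (1 - l) * φ) = (1 - l) * φ := by ring
    ring
  have hss : 0 ≤ Real.sin φ * Real.sin ((1 - l) * φ) := by
    have h1l : 0 < 1 - l := by linarith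
    rcases le_total 0 φ with h | h
    · apply mul_nonneg
      · exact Real.sin_nonneg_of_nonneg_of_le_pi h (by linarith [Real.pi_pos])
      · exact Real.sin_nonneg_of_nonneg_of_le_pi (by positivity) (by nlinarith [Real.pi_pos])
    · have a1 : Real.sin φ ≤ 0 := Real.sin_nonpos_of_nonpos_of_neg_pi_le h (by linarith [Real.pi_pos])
      have a2 : Real.sin ((1 - l) * φ) ≤ 0 :=
        Real.sin_nonpos_of_nonpos_of_neg_pi_le (by nlinarith) (by nlinarith [Real.pi_pos])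
      exact mul_nonneg_of_nonpos_of_nonpos a1 a2
  have hs1 : |Real.sin φ| ≤ 1 := Real.abs_sin_le_one φ
  -- first brace
  have hb1 : l * ρ * Real.sin (l * (Real.pi / 2)) ≤
      (Real.cos (l * φ) * (2 * l * (1 - ρ * (2 * Real.cos φ - ρ)) +
        ρ * (2 * Real.cos φ - ρ) * (1 + l)) -
        l * (2 * Real.cos φ - ρ) * Real.cos ((1 - l) * φ)) := by
    have e : (Real.cos (l * φ) * (2 * l * (1 - ρ * (2 * Real.cos φ - ρ)) +
        ρ * (2 * Real.cos φ - ρ) * (1 + l)) -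
        l * (2 * Real.cos φ - ρ) * Real.cos ((1 - l) * φ)) =
        2 * l * (Real.cos (l * φ) - Real.cos φ * Real.cos ((1 - l) * φ)) +
        (1 - l) * (ρ * (2 * Real.cos φ - ρ)) * Real.cos (l * φ) +
        l * ρ * Real.cos ((1 - l) * φ) := by ring
    rw [e, hprod]
    have t1 : 0 ≤ 2 * l * (Real.sin φ * Real.sin ((1 - l) * φ)) := by positivity
    have t2 : 0 ≤ (1 - l) * (ρ * (2 * Real.cos φ - ρ)) * Real.cos (l * φ) := by
      have : 0 < 1 - l := by linarith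
      have : 0 < 2 * Real.cos φ - ρ := by linarith
      positivity
    have t3 : l * ρ * Real.sin (l * (Real.pi / 2)) ≤ l * ρ * Real.cos ((1 - l) * φ) := by
      apply mul_le_mul_of_nonneg_left hM (by positivity)
    linarith
  -- second brace
  have hρ2 : ρ < 2 := by linarith
  have hg : 0 < 2 * Real.cos φ - ρ := by linarith
  have hg2 : 2 * Real.cos φ - ρ ≤ 2 := by linarith
  have hr0 : 0 ≤ 1 - ρ * (2 * Real.cos φ - ρ) := by
    nlinarith [sq_nonneg (ρ - Real.cos φ)]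
  have hr1 : 1 - ρ * (2 * Real.cos φ - ρ) ≤ 1 := by nlinarith
  have hb2 : |2 * l * (1 - ρ * (2 * Real.cos φ - ρ)) * (ρ ^ 2 * (2 * Real.sin φ * Real.cos φ)) +
        ρ * (2 * Real.cos φ - ρ) * (3 * ρ ^ 2 * (2 * Real.sin φ * Real.cos φ) -
          2 * ρ * Real.sin φ)| ≤ 36 * ρ ^ 2 := by
    have e : 2 * l * (1 - ρ * (2 * Real.cos φ - ρ)) * (ρ ^ 2 * (2 * Real.sin φ * Real.cos φ)) +
        ρ * (2 * Real.cos φ - ρ) * (3 * ρ ^ 2 * (2 * Real.sin φ * Real.cos φ) -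
          2 * ρ * Real.sin φ) =
        ρ ^ 2 * (Real.sin φ * (4 * l * (1 - ρ * (2 * Real.cos φ - ρ)) * Real.cos φ +
          (2 * Real.cos φ - ρ) * (6 * ρ * Real.cos φ - 2))) := by ring
    rw [e, abs_mul, abs_mul, abs_of_nonneg (sq_nonneg ρ)]
    have k1 : |4 * l * (1 - ρ * (2 * Real.cos φ - ρ)) * Real.cos φ +
          (2 * Real.cos φ - ρ) * (6 * ρ * Real.cos φ - 2)| ≤ 36 := by
      have u1 : 0 ≤ l * (1 - ρ * (2 * Real.cos φ - ρ)) * Real.cos φ := by positivity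
      have u2 : l * (1 - ρ * (2 * Real.cos φ - ρ)) * Real.cos φ ≤ 1 := by
        have : l * (1 - ρ * (2 * Real.cos φ - ρ)) ≤ 1 := by nlinarith
        have : 0 ≤ l * (1 - ρ * (2 * Real.cos φ - ρ)) := by positivity
        nlinarith
      have u3 : 0 ≤ ρ * Real.cos φ := by positivity
      have u4 : ρ * Real.cos φ ≤ 2 := by nlinarith
      have u5 : (2 * Real.cos φ - ρ) * (6 * ρ * Real.cos φ - 2) ≤ 24 := by nlinarith
      have u6 : -4 ≤ (2 * Real.cos φ - ρ) * (6 * ρ * Real.cos φ - 2) := by nlinarith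
      rw [abs_le]
      constructor
      · nlinarith
      · nlinarith
    have k2 : |Real.sin φ| * |4 * l * (1 - ρ * (2 * Real.cos φ - ρ)) * Real.cos φ +
          (2 * Real.cos φ - ρ) * (6 * ρ * Real.cos φ - 2)| ≤ 1 * 36 :=
      mul_le_mul hs1 k1 (abs_nonneg _) zero_le_one
    nlinarith [sq_nonneg ρ]
  have hρl : ρ ≤ 2 * ρ ^ l := by
    have e : ρ = ρ ^ l * ρ ^ (1 - l) := by
      rw [← Real.rpow_add hρ]
      simp
    have h1l : 0 < 1 - l := by linarith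
    have h2 : ρ ^ (1 - l) ≤ 2 := by
      calc ρ ^ (1 - l) ≤ 2 ^ (1 - l) := Real.rpow_le_rpow hρ.le hρ2.le h1l.le
        _ ≤ 2 ^ (1 : ℝ) := Real.rpow_le_rpow_of_exponent_le (by norm_num) (by linarith)
        _ = 2 := by norm_num
    have h3 : 0 < ρ ^ l := Real.rpow_pos_of_pos hρ l
    calc ρ = ρ ^ l * ρ ^ (1 - l) := e
      _ ≤ ρ ^ l * 2 := by gcongr
      _ = 2 * ρ ^ l := by ring
  have h3 : 0 < ρ ^ l := Real.rpow_pos_of_pos hρ l
  have hA := mul_le_mul_of_nonneg_left hb1 h3.le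
  have hB := (abs_le.mp hb2).1
  have hB' := mul_le_mul_of_nonneg_left hB hδ0
  have hC : 36 * δ * ρ ^ 2 ≤ ρ ^ l * (l * ρ * Real.sin (l * (Real.pi / 2))) := by
    calc 36 * δ * ρ ^ 2 = (36 * δ * ρ) * ρ := by ring
      _ ≤ (36 * δ * ρ) * (2 * ρ ^ l) := by gcongr
      _ = (72 * δ) * (ρ * ρ ^ l) := by ring
      _ ≤ (l * Real.sin (l * (Real.pi / 2))) * (ρ * ρ ^ l) := by gcongr
      _ = ρ ^ l * (l * ρ * Real.sin (l * (Real.pi / 2))) := by ring
  have hD : δ * -(36 * ρ ^ 2) = -(36 * δ * ρ ^ 2) := by ring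
  rw [hD] at hB'
  linarith

/-- polar data of `1 - z` -/
lemma polar {z : ℂ} (hz : z ∈ ball (0 : ℂ) 1) :
    0 < ‖1 - z‖ ∧ |(1 - z).arg| < Real.pi / 2 ∧ ‖1 - z‖ < 2 * Real.cos (1 - z).arg ∧
    1 - ‖z‖ ^ 2 = ‖1 - z‖ * (2 * Real.cos (1 - z).arg - ‖1 - z‖) := by
  have hre := one_sub_re hz
  have h0 : 1 - z ≠ 0 := by
    intro h; rw [h] at hre; simp at hre
  have h1 : 0 < ‖1 - z‖ := norm_pos_iff.mpr h0
  have h2 : |(1 - z).arg| < Real.pi / 2 := Complex.abs_arg_lt_pi_div_two_iff.mpr (Or.inl hre)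
  have hX : (1 - z).re = ‖1 - z‖ * Real.cos (1 - z).arg := by rw [Complex.norm_mul_cos_arg]
  have e : 1 - ‖z‖ ^ 2 = ‖1 - z‖ * (2 * Real.cos (1 - z).arg - ‖1 - z‖) := by
    have e1 : ‖1 - z‖ * (2 * Real.cos (1 - z).arg - ‖1 - z‖) = 2 * (1 - z).re - ‖1 - z‖ ^ 2 := by
      rw [hX]; ring
    rw [e1, ← Complex.normSq_eq_norm_sq, ← Complex.normSq_eq_norm_sq, Complex.normSq_apply,
      Complex.normSq_apply]
    simp only [Complex.sub_re, Complex.sub_im, Complex.one_re, Complex.one_im]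
    ring
  refine ⟨h1, h2, ?_, e⟩
  have h3 : ‖z‖ < 1 := by simpa using hz
  have h4 : 0 < 1 - ‖z‖ ^ 2 := by nlinarith [norm_nonneg z]
  rw [e] at h4
  have := (mul_pos_iff_of_pos_left h1).mp h4
  linarith

lemma pf_re (l δ : ℝ) {z : ℂ} (hz : z ∈ ball (0 : ℂ) 1) :
    (pf l δ z).re = ‖1 - z‖ ^ l * Real.cos (l * (1 - z).arg) +
      δ * (‖1 - z‖ ^ 2 * (2 * Real.sin (1 - z).arg * Real.cos (1 - z).arg)) := by
  have hre := one_sub_re hz
  have h0 : 1 - z ≠ 0 := by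
    intro h; rw [h] at hre; simp at hre
  have hX : (1 - z).re = ‖1 - z‖ * Real.cos (1 - z).arg := by rw [Complex.norm_mul_cos_arg]
  have hY : (1 - z).im = ‖1 - z‖ * Real.sin (1 - z).arg := by rw [Complex.norm_mul_sin_arg]
  unfold pf
  rw [cpow_polar h0 l, Complex.add_re]
  have e1 : (((‖1 - z‖ ^ l : ℝ) : ℂ) * (Real.cos (l * (1 - z).arg) +
      Real.sin (l * (1 - z).arg) * Complex.I)).re = ‖1 - z‖ ^ l * Real.cos (l * (1 - z).arg) := by
    simp only [Complex.mul_re, Complex.mul_im, Complex.add_re, Complex.add_im, Complex.ofReal_re,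
      Complex.ofReal_im, Complex.I_re, Complex.I_im]
    ring
  have e2 : (Complex.I * (δ : ℂ) * (1 - (1 - z) ^ 2)).re =
      δ * (2 * (1 - z).re * (1 - z).im) := by
    simp only [pow_two, Complex.mul_re, Complex.mul_im, Complex.sub_re, Complex.sub_im,
      Complex.ofReal_re, Complex.ofReal_im, Complex.I_re, Complex.I_im, Complex.one_re,
      Complex.one_im]
    ring
  rw [e1, e2, hX, hY]
  ring

lemma dpf_re (l δ : ℝ) {z : ℂ} (hz : z ∈ ball (0 : ℂ) 1) :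
    (z * (-(l * (1 - z) ^ ((l : ℂ) - 1)) + 2 * Complex.I * δ * (1 - z))).re =
      l * ‖1 - z‖ ^ l * Real.cos (l * (1 - z).arg) -
      l * ‖1 - z‖ ^ (l - 1) * Real.cos ((1 - l) * (1 - z).arg) +
      δ * (2 * ‖1 - z‖ ^ 2 * (2 * Real.sin (1 - z).arg * Real.cos (1 - z).arg) -
        2 * ‖1 - z‖ * Real.sin (1 - z).arg) := by
  have hre := one_sub_re hz
  have h0 : 1 - z ≠ 0 := by
    intro h; rw [h] at hre; simp at hre
  have hX : (1 - z).re = ‖1 - z‖ * Real.cos (1 - z).arg := by rw [Complex.norm_mul_cos_arg]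
  have hY : (1 - z).im = ‖1 - z‖ * Real.sin (1 - z).arg := by rw [Complex.norm_mul_sin_arg]
  have e0 : z * (-(l * (1 - z) ^ ((l : ℂ) - 1)) + 2 * Complex.I * δ * (1 - z)) =
      l * (1 - z) ^ (l : ℂ) - l * (1 - z) ^ (((l - 1 : ℝ)) : ℂ) +
      δ * (2 * Complex.I * (1 - z) - 2 * Complex.I * (1 - z) ^ 2) := by
    have : (1 - z) ^ (l : ℂ) = (1 - z) ^ ((l : ℂ) - 1) * (1 - z) := by
      rw [Complex.cpow_sub _ _ h0, Complex.cpow_one]
      field_simp
    rw [this]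
    push_cast
    ring
  rw [e0, cpow_polar h0 l, cpow_polar h0 (l - 1), Complex.add_re, Complex.sub_re]
  have e1 : ∀ (a b c : ℝ), ((l : ℂ) * (((a : ℝ) : ℂ) * ((b : ℂ) + (c : ℂ) * Complex.I))).re =
      l * a * b := by
    intro a b c
    simp only [Complex.mul_re, Complex.mul_im, Complex.add_re, Complex.add_im, Complex.ofReal_re,
      Complex.ofReal_im, Complex.I_re, Complex.I_im]
    ring
  have e2 : ((δ : ℂ) * (2 * Complex.I * (1 - z) - 2 * Complex.I * (1 - z) ^ 2)).re =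
      δ * (4 * (1 - z).re * (1 - z).im - 2 * (1 - z).im) := by
    simp only [pow_two, Complex.mul_re, Complex.mul_im, Complex.sub_re, Complex.sub_im,
      Complex.ofReal_re, Complex.ofReal_im, Complex.I_re, Complex.I_im, Complex.one_re,
      Complex.one_im, Complex.re_ofNat, Complex.im_ofNat]
    ring
  rw [e1, e1, e2, hX, hY]
  have e3 : Real.cos ((l - 1) * (1 - z).arg) = Real.cos ((1 - l) * (1 - z).arg) := by
    rw [← Real.cos_neg]
    congr 1
    ring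
  rw [e3]
  ring

/-- the function `f(z) = z p(z)` -/
noncomputable def ff (l δ : ℝ) (z : ℂ) : ℂ := z * pf l δ z

lemma hasDerivAt_ff (l δ : ℝ) {z : ℂ} (hz : z ∈ ball (0 : ℂ) 1) :
    HasDerivAt (ff l δ)
      (pf l δ z + z * (-(l * (1 - z) ^ ((l : ℂ) - 1)) + 2 * Complex.I * δ * (1 - z))) z := by
  have := (hasDerivAt_id z).mul (hasDerivAt_pf l δ hz)
  simp only [id, one_mul] at this
  exact this

lemma pf_zero (l δ : ℝ) : pf l δ 0 = 1 := by
  unfold pf
  simp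

lemma dslope_ff (l δ : ℝ) {z : ℂ} (hz : z ∈ ball (0 : ℂ) 1) : dslope (ff l δ) 0 z = pf l δ z := by
  rcases eq_or_ne z 0 with h | h
  · subst h
    rw [dslope_same, (hasDerivAt_ff l δ (mem_ball_self one_pos)).deriv]
    ring
  · rw [dslope_of_ne _ h, slope_def_field]
    unfold ff
    field_simp
    ring

lemma ff_mem {α : ℝ} (hα0 : 0 < α) (hα : α < 2 / 3) :
    ∃ l δ : ℝ, 0 < l ∧ l < 1 ∧ 0 < δ ∧ ff l δ ∈ H α := by
  have h1α : 0 < 1 - α := by linarith
  set l : ℝ := α / (2 * (1 - α)) with hl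
  have hl0 : 0 < l := by positivity
  have hl1 : l < 1 := by
    rw [hl, div_lt_one (by positivity)]
    linarith
  have hαl : α = 2 * l * (1 - α) := by
    rw [hl]; field_simp
  have hs0 : 0 < Real.sin (l * (Real.pi / 2)) :=
    Real.sin_pos_of_pos_of_lt_pi (by positivity) (by nlinarith [Real.pi_pos])
  have hc0 : 0 < Real.cos (l * (Real.pi / 2)) :=
    Real.cos_pos_of_mem_Ioo ⟨by nlinarith [Real.pi_pos], by nlinarith [Real.pi_pos]⟩
  set δ : ℝ := min (l * Real.sin (l * (Real.pi / 2)) / 72) (Real.cos (l * (Real.pi / 2)) / 8) with hδ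
  have hδ0 : 0 < δ := by
    rw [hδ]
    exact lt_min (by positivity) (by positivity)
  have hδ1 : 72 * δ ≤ l * Real.sin (l * (Real.pi / 2)) := by
    have : δ ≤ l * Real.sin (l * (Real.pi / 2)) / 72 := min_le_left _ _
    linarith
  have hδ2 : 8 * δ ≤ Real.cos (l * (Real.pi / 2)) := by
    have : δ ≤ Real.cos (l * (Real.pi / 2)) / 8 := min_le_right _ _
    linarith
  refine ⟨l, δ, hl0, hl1, hδ0, ?_, ?_, ?_, ?_, ?_⟩
  · intro z hz
    exact (hasDerivAt_ff l δ hz).differentiableAt.differentiableWithinAt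
  · simp [ff]
  · rw [(hasDerivAt_ff l δ (mem_ball_self one_pos)).deriv, pf_zero]
    ring
  · intro z hz
    rw [dslope_ff l δ hz, pf_re l δ hz]
    obtain ⟨h1, h2, h3, -⟩ := polar hz
    generalize ‖1 - z‖ = ρ at *
    generalize (1 - z).arg = φ at *
    obtain ⟨hψl, hψr⟩ := abs_lt.mp h2
    have hcφ : 0 < Real.cos φ := Real.cos_pos_of_mem_Ioo ⟨by linarith, by linarith⟩
    have hC : Real.cos (l * (Real.pi / 2)) ≤ Real.cos (l * φ) := by
      rw [← Real.cos_abs (l * φ)]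
      apply Real.cos_le_cos_of_nonneg_of_le_pi (abs_nonneg _)
      · nlinarith [Real.pi_pos]
      · rw [abs_mul, abs_of_pos hl0]
        nlinarith
    have hρ2 : ρ < 2 := by linarith [Real.cos_le_one φ]
    have hρl : ρ ^ 2 ≤ 4 * ρ ^ l := by
      have e : ρ ^ 2 = ρ ^ l * ρ ^ (2 - l) := by
        rw [← Real.rpow_add h1]
        norm_num
      have h4 : ρ ^ (2 - l) ≤ 4 := by
        calc ρ ^ (2 - l) ≤ 2 ^ (2 - l) := Real.rpow_le_rpow h1.le hρ2.le (by linarith)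
          _ ≤ 2 ^ (2 : ℝ) := Real.rpow_le_rpow_of_exponent_le (by norm_num) (by linarith)
          _ = 4 := by norm_num
      have h5 : 0 < ρ ^ l := Real.rpow_pos_of_pos h1 l
      calc ρ ^ 2 = ρ ^ l * ρ ^ (2 - l) := e
        _ ≤ ρ ^ l * 4 := by gcongr
        _ = 4 * ρ ^ l := by ring
    have h5 : 0 < ρ ^ l := Real.rpow_pos_of_pos h1 l
    have h6 : |2 * Real.sin φ * Real.cos φ| ≤ 2 := by
      rw [abs_mul, abs_mul]
      have := Real.abs_sin_le_one φ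
      have := Real.abs_cos_le_one φ
      have : |Real.sin φ| * |Real.cos φ| ≤ 1 * 1 :=
        mul_le_mul (by assumption) (by assumption) (abs_nonneg _) zero_le_one
      simp only [abs_two]
      nlinarith
    have h7 : -(ρ ^ 2 * 2) ≤ ρ ^ 2 * (2 * Real.sin φ * Real.cos φ) := by
      have := (abs_le.mp h6).1
      nlinarith [sq_nonneg ρ]
    have h8 := mul_le_mul_of_nonneg_left h7 hδ0.le
    have h9 : ρ ^ l * (8 * δ) ≤ ρ ^ l * Real.cos (l * φ) := by
      apply mul_le_mul_of_nonneg_left (hδ2.trans hC) h5.le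
    nlinarith
  · intro z hz
    have hd : deriv (ff l δ) z = pf l δ z +
        z * (-(l * (1 - z) ^ ((l : ℂ) - 1)) + 2 * Complex.I * δ * (1 - z)) :=
      (hasDerivAt_ff l δ hz).deriv
    rw [dslope_ff l δ hz, hd, Complex.add_re, Complex.re_ofReal_mul, Complex.re_ofReal_mul,
      Complex.add_re, dpf_re l δ hz, pf_re l δ hz]
    obtain ⟨h1, h2, h3, h4⟩ := polar hz
    have hcore := core hl0 hl1 hδ0.le hδ1 h1 h2 h3
    have hz2 : ‖z‖ ^ 2 = 1 - ‖1 - z‖ * (2 * Real.cos (1 - z).arg - ‖1 - z‖) := by linarith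
    have hpow : ‖1 - z‖ ^ l = ‖1 - z‖ ^ (l - 1) * ‖1 - z‖ := by
      rw [← Real.rpow_add_one h1.ne']
      congr 1
      ring
    rw [h4, hz2]
    generalize ‖1 - z‖ ^ (l - 1) = q at *
    rw [hpow] at hcore ⊢
    have : 0 ≤ (1 - α) * (q * ‖1 - z‖ * (Real.cos (l * (1 - z).arg) * (2 * l * (1 - ‖1 - z‖ * (2 * Real.cos (1 - z).arg - ‖1 - z‖)) +
        ‖1 - z‖ * (2 * Real.cos (1 - z).arg - ‖1 - z‖) * (1 + l)) -
        l * (2 * Real.cos (1 - z).arg - ‖1 - z‖) * Real.cos ((1 - l) * (1 - z).arg)) +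
      δ * (2 * l * (1 - ‖1 - z‖ * (2 * Real.cos (1 - z).arg - ‖1 - z‖)) * (‖1 - z‖ ^ 2 * (2 * Real.sin (1 - z).arg * Real.cos (1 - z).arg)) +
        ‖1 - z‖ * (2 * Real.cos (1 - z).arg - ‖1 - z‖) * (3 * ‖1 - z‖ ^ 2 * (2 * Real.sin (1 - z).arg * Real.cos (1 - z).arg) -
          2 * ‖1 - z‖ * Real.sin (1 - z).arg))) := mul_nonneg h1α.le hcore
    have hα' : α = 2 * l * (1 - α) := hαl
    generalize ‖1 - z‖ = ρ at *
    generalize (1 - z).arg = φ at *
    refine this.trans_eq ?_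
    linear_combination (-(1 - ρ * (2 * Real.cos φ - ρ)) * (q * ρ * Real.cos (l * φ) +
      δ * (ρ ^ 2 * (2 * Real.sin φ * Real.cos φ)))) * hα'

theorem result : ∀ α : ℝ, 0 < α → α < 2 / 3 → B (H α) = 1 := by
  intro α hα0 hα
  unfold B
  have key : IsLUB {t : ℝ | ∃ f ∈ H α, ∃ z ∈ ball (0 : ℂ) 1, t = |(dslope f 0 z).arg|}
      (Real.pi / 2) := by
    constructor
    · rintro t ⟨f, hf, z, hz, rfl⟩
      exact Complex.abs_arg_le_pi_div_two_iff.mpr (hf.2.2.2.1 z hz)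
    · intro b hb
      obtain ⟨l, δ, hl0, hl1, hδ0, hmem⟩ := ff_mem hα0 hα
      have hlim : Tendsto (fun x : ℝ => |(pf l δ ((1 - x : ℝ) : ℂ)).arg|) (𝓝[>] 0)
          (𝓝 (Real.pi / 2)) := by
        have h1 : Tendsto (fun x : ℝ => pf l δ ((1 - x : ℝ) : ℂ)) (𝓝[>] 0)
            (𝓝 (Complex.I * δ)) := by
          have e : (fun x : ℝ => pf l δ ((1 - x : ℝ) : ℂ)) =ᶠ[𝓝[>] 0]
              fun x : ℝ => ((x ^ l : ℝ) : ℂ) + Complex.I * δ * (1 - (x : ℂ) ^ 2) := by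
            filter_upwards [self_mem_nhdsWithin] with x hx
            unfold pf
            have : (1 : ℂ) - ((1 - x : ℝ) : ℂ) = (x : ℂ) := by push_cast; ring
            rw [this, ← Complex.ofReal_cpow (le_of_lt hx)]
          refine Tendsto.congr' e.symm ?_
          have h2 : Tendsto (fun x : ℝ => ((x ^ l : ℝ) : ℂ)) (𝓝[>] 0) (𝓝 ((0 ^ l : ℝ) : ℂ)) := by
            have := (Complex.continuous_ofReal.comp (Real.continuous_rpow_const hl0.le)).tendsto (0 : ℝ)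
            exact this.mono_left nhdsWithin_le_nhds
          have h3 : Tendsto (fun x : ℝ => Complex.I * (δ : ℂ) * (1 - (x : ℂ) ^ 2)) (𝓝[>] 0)
              (𝓝 (Complex.I * (δ : ℂ) * (1 - ((0 : ℝ) : ℂ) ^ 2))) := by
            have hc : Continuous (fun x : ℝ => Complex.I * (δ : ℂ) * (1 - (x : ℂ) ^ 2)) := by
              fun_prop
            exact (hc.tendsto 0).mono_left nhdsWithin_le_nhds
          have h4 := h2.add h3
          rw [Real.zero_rpow hl0.ne'] at h4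
          simpa using h4
        have h5 : Complex.I * (δ : ℂ) ∈ Complex.slitPlane := by
          right
          simp [hδ0.ne']
        have h6 := (Complex.continuousAt_arg h5).tendsto.comp h1
        have h7 : (Complex.I * (δ : ℂ)).arg = Real.pi / 2 := by
          rw [mul_comm, Complex.arg_real_mul _ hδ0, Complex.arg_I]
        rw [h7] at h6
        have h8 := h6.abs
        rw [abs_of_pos (by positivity : 0 < Real.pi / 2)] at h8
        exact h8
      apply le_of_tendsto hlim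
      have h9 : Set.Ioo (0 : ℝ) 1 ∈ 𝓝[>] (0 : ℝ) := Ioo_mem_nhdsGT one_pos
      filter_upwards [h9] with x hx
      apply hb
      have hz : ((1 - x : ℝ) : ℂ) ∈ ball (0 : ℂ) 1 := by
        rw [mem_ball_zero_iff, Complex.norm_real, Real.norm_eq_abs, abs_lt]
        exact ⟨by linarith [hx.2], by linarith [hx.1]⟩
      exact ⟨ff l δ, hmem, _, hz, by rw [dslope_ff l δ hz]⟩
  have hne : {t : ℝ | ∃ f ∈ H α, ∃ z ∈ ball (0 : ℂ) 1, t = |(dslope f 0 z).arg|}.Nonempty := by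
    obtain ⟨l, δ, -, -, -, hmem⟩ := ff_mem hα0 hα
    exact ⟨_, ff l δ, hmem, 0, mem_ball_self one_pos, rfl⟩
  rw [key.csSup_eq hne]
  field_simp

end Pool.Agent.Results.MP_84a0b9_an.ArgumentBoundOne
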